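import Pool.Agent.Run7.h923.Final

set_option autoImplicit false
open MvPolynomial Filter Topology

namespace Pool.Agent.Results.MP_e00b88_lc.SymmetricFamilies

/-- The Waring rank of the family is eventually polynomially bounded. -/
def PolyWaring (N d : ℕ → ℕ) (f : (n : ℕ) → MvPolynomial (Fin (N n)) ℂ) : Prop :=
  ∃ C s : ℕ, ∀ᶠ n in atTop, ∃ r : ℕ, r ≤ C * n ^ s ∧
    ∃ ℓ : Fin r → MvPolynomial (Fin (N n)) ℂ,
      (∀ i, (ℓ i).IsHomogeneous 1) ∧ f n = ∑ i, ℓ i ^ d n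

/-- The border Waring rank of the family is eventually polynomially bounded
(literally the hypothesis of the frozen statement). -/
def PolyBorderWaring (N d : ℕ → ℕ) (f : (n : ℕ) → MvPolynomial (Fin (N n)) ℂ) : Prop :=
  ∃ C s : ℕ, ∀ᶠ n in atTop, ∃ r : ℕ, r ≤ C * n ^ s ∧
    ∃ g : ℕ → MvPolynomial (Fin (N n)) ℂ,
      (∀ k, ∃ ℓ : Fin r → MvPolynomial (Fin (N n)) ℂ,
          (∀ i, (ℓ i).IsHomogeneous 1) ∧ g k = ∑ i, ℓ i ^ d n) ∧
      ∀ m : Fin (N n) →₀ ℕ,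
        Tendsto (fun k => MvPolynomial.coeff m (g k)) atTop
          (𝓝 (MvPolynomial.coeff m (f n)))

/-- For some `k`, the derivatives of order `k` of the forms of the family span a space whose
dimension is `o(n ^ k)`. -/
def FewDerivatives (N : ℕ → ℕ) (f : (n : ℕ) → MvPolynomial (Fin (N n)) ℂ) : Prop :=
  ∃ k : ℕ, Tendsto (fun n : ℕ =>
    (Module.finrank ℂ (Submodule.span ℂ
      {g : MvPolynomial (Fin (N n)) ℂ | ∃ L : List (Fin (N n)), L.length = k ∧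
        g = L.foldr (fun x p => pderiv x p) (f n)}) : ℝ) / (n : ℝ) ^ k) atTop (𝓝 0)

/-- For families of forms invariant under symmetric groups acting on variables of bounded type,
the border Waring rank is polynomially bounded iff the Waring rank is, iff for some `k` the
derivatives of order `k` span `o(n ^ k)` dimensions. -/
theorem result (q b : ℕ) (N d : ℕ → ℕ) (f : (n : ℕ) → MvPolynomial (Fin (N n)) ℂ)
    (ρ : (n : ℕ) → Equiv.Perm (Fin n) →* Equiv.Perm (Fin (N n)))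
    (hd : ∃ C s : ℕ, ∀ n, d n ≤ C * (n + 1) ^ s) (hd1 : ∀ n, 1 ≤ d n)
    (hf : ∀ n, (f n).IsHomogeneous (d n))
    (horb : ∀ n, ∃ R : Finset (Fin (N n)), R.card ≤ b ∧ ∀ x, ∃ y ∈ R, ∃ σ, ρ n σ y = x)
    (hsupp : ∀ n x, ∃ T : Finset (Fin n), T.card ≤ q ∧
      ∀ σ : Equiv.Perm (Fin n), (∀ i ∈ T, σ i = i) → ρ n σ x = x)
    (hsym : ∀ n (σ : Equiv.Perm (Fin n)), rename (ρ n σ) (f n) = f n) :
    List.TFAE [PolyWaring N d f, PolyBorderWaring N d f, FewDerivatives N f] := by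
  tfae_have 1 → 2 := by
    rintro ⟨C, s, h⟩
    refine ⟨C, s, h.mono ?_⟩
    rintro n ⟨r, hr, ℓ, hℓ, hfℓ⟩
    exact ⟨r, hr, fun _ => f n, fun _ => ⟨ℓ, hℓ, hfℓ⟩, fun m => tendsto_const_nhds⟩
  tfae_have 2 → 3 := by
    rintro ⟨C, s, h⟩
    refine ⟨s + 1, Run7.h923.ratio_of_bound N f C s (h.mono ?_)⟩
    rintro n ⟨r, hr, g, hg, hlim⟩
    exact (Run7.h923.border_bound (d n) r (s + 1) (f n) g hg hlim).trans hr
  tfae_have 3 → 1 := by
    intro h
    exact Run7.h923.asym q b N d f ρ hd hd1 hf horb hsupp hsym h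
  tfae_finish

end Pool.Agent.Results.MP_e00b88_lc.SymmetricFamilies
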