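import Pool.Agent.Run7.h923.Final

set_option autoImplicit false
open MvPolynomial Filter Topology

namespace Pool.Agent.Results.MP_e00b88_lc.SymmetricLowDegree

/-- The Waring rank of the family is eventually polynomially bounded. -/
def PolyWaring (N d : ℕ → ℕ) (f : (n : ℕ) → MvPolynomial (Fin (N n)) ℂ) : Prop :=
  ∃ C s : ℕ, ∀ᶠ n in atTop, ∃ r : ℕ, r ≤ C * n ^ s ∧
    ∃ ℓ : Fin r → MvPolynomial (Fin (N n)) ℂ,
      (∀ i, (ℓ i).IsHomogeneous 1) ∧ f n = ∑ i, ℓ i ^ d n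

/-- The border Chow rank of the family is eventually polynomially bounded. -/
def PolyBorderChow (N d : ℕ → ℕ) (f : (n : ℕ) → MvPolynomial (Fin (N n)) ℂ) : Prop :=
  ∃ C s : ℕ, ∀ᶠ n in atTop, ∃ r : ℕ, r ≤ C * n ^ s ∧
    ∃ g : ℕ → MvPolynomial (Fin (N n)) ℂ,
      (∀ k, ∃ ℓ : Fin r → Fin (d n) → MvPolynomial (Fin (N n)) ℂ,
          (∀ i j, (ℓ i j).IsHomogeneous 1) ∧ g k = ∑ i, ∏ j, ℓ i j) ∧
      ∀ m : Fin (N n) →₀ ℕ,
        Tendsto (fun k => MvPolynomial.coeff m (g k)) atTop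
          (𝓝 (MvPolynomial.coeff m (f n)))

/-- For families of forms of degree `O(n ^ (c / (c + 1)))`, invariant under symmetric groups
acting on variables of bounded type, polynomially bounded border Chow rank is equivalent to
polynomially bounded Waring rank. -/
theorem result (q b c : ℕ) (N d : ℕ → ℕ) (f : (n : ℕ) → MvPolynomial (Fin (N n)) ℂ)
    (ρ : (n : ℕ) → Equiv.Perm (Fin n) →* Equiv.Perm (Fin (N n)))
    (hd : ∃ A : ℕ, ∀ n, d n ^ (c + 1) ≤ A * (n + 1) ^ c) (hd1 : ∀ n, 1 ≤ d n)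
    (hf : ∀ n, (f n).IsHomogeneous (d n))
    (horb : ∀ n, ∃ R : Finset (Fin (N n)), R.card ≤ b ∧ ∀ x, ∃ y ∈ R, ∃ σ, ρ n σ y = x)
    (hsupp : ∀ n x, ∃ T : Finset (Fin n), T.card ≤ q ∧
      ∀ σ : Equiv.Perm (Fin n), (∀ i ∈ T, σ i = i) → ρ n σ x = x)
    (hsym : ∀ n (σ : Equiv.Perm (Fin n)), rename (ρ n σ) (f n) = f n) :
    PolyBorderChow N d f ↔ PolyWaring N d f := by
  constructor
  · rintro ⟨C, s, h⟩
    obtain ⟨A, hA⟩ := hd
    have hd' : ∃ C s : ℕ, ∀ n, d n ≤ C * (n + 1) ^ s := by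
      refine ⟨A, c, fun n => ?_⟩
      exact (Nat.le_self_pow (by omega) _).trans (hA n)
    refine Run7.h923.asym q b N d f ρ hd' hd1 hf horb hsupp hsym
      ⟨(s + c * (s + 1)) + 1, Run7.h923.ratio_of_bound N f (C * (A * 2 ^ c) ^ (s + 1))
        (s + c * (s + 1)) ?_⟩
    filter_upwards [h, eventually_ge_atTop 1] with n hn hn1
    obtain ⟨r, hr, g, hg, hlim⟩ := hn
    have h1 : Module.finrank ℂ (Run7.h923.Ders (s + c * (s + 1) + 1) (f n)) ≤
        r * d n ^ (s + c * (s + 1) + 1) := by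
      refine Run7.h923.finrank_Ders_le_of_limit _ _ (f n) g hlim (fun κ => ?_)
      obtain ⟨ℓ, hℓ, hgκ⟩ := hg κ
      rw [hgκ]
      exact Run7.h923.chow_bound (d n) r _ ℓ hℓ
    refine h1.trans ?_
    have h2 : s + c * (s + 1) + 1 = (c + 1) * (s + 1) := by ring
    have h3 : d n ^ (c + 1) ≤ A * 2 ^ c * n ^ c := by
      calc d n ^ (c + 1) ≤ A * (n + 1) ^ c := hA n
        _ ≤ A * (2 * n) ^ c := by gcongr; omega
        _ = A * 2 ^ c * n ^ c := by rw [mul_pow]; ring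
    calc r * d n ^ (s + c * (s + 1) + 1) = r * (d n ^ (c + 1)) ^ (s + 1) := by
          rw [h2, pow_mul]
      _ ≤ (C * n ^ s) * (A * 2 ^ c * n ^ c) ^ (s + 1) :=
          Nat.mul_le_mul hr (Nat.pow_le_pow_left h3 _)
      _ = C * (A * 2 ^ c) ^ (s + 1) * n ^ (s + c * (s + 1)) := by
          rw [mul_pow (A * 2 ^ c), ← pow_mul, pow_add]
          ring
  · rintro ⟨C, s, h⟩
    refine ⟨C, s, h.mono ?_⟩
    rintro n ⟨r, hr, ℓ, hℓ, hfℓ⟩
    refine ⟨r, hr, fun _ => f n, fun _ => ⟨fun i _ => ℓ i, fun i _ => hℓ i, ?_⟩,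
      fun m => tendsto_const_nhds⟩
    rw [hfℓ]
    refine Finset.sum_congr rfl (fun i _ => ?_)
    rw [Finset.prod_const, Finset.card_univ, Fintype.card_fin]

end Pool.Agent.Results.MP_e00b88_lc.SymmetricLowDegree
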